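import Pool.Agent.helper81.CW.Spec2

/-! # Project cw (MP_447e26_gt), module J2: basic facts on bodies of constant width -/

open MeasureTheory Set
open scoped ENNReal Pointwise

namespace Pool.Agent.helper81.CW

theorem J2_sep {n : ℕ} (K : Set (E n)) (hK : IsCompact K) (hc : Convex ℝ K) (hne : K.Nonempty)
    (z : E n) (hz : z ∉ K) : ∃ u : E n, ‖u‖ = 1 ∧ ∀ a ∈ K, inner ℝ u a < (inner ℝ u z : ℝ) := by
  obtain ⟨f, s, h1, h2⟩ := geometric_hahn_banach_closed_point hc hK.isClosed hz
  set v : E n := (InnerProductSpace.toDual ℝ (E n)).symm f with hv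
  have hf : ∀ x, (inner ℝ v x : ℝ) = f x := fun x => InnerProductSpace.toDual_symm_apply
  obtain ⟨a, ha⟩ := hne
  have hlt : f a < f z := (h1 a ha).trans h2
  have hv0 : v ≠ 0 := by
    intro h0
    rw [← hf, ← hf, h0, inner_zero_left, inner_zero_left] at hlt
    exact lt_irrefl _ hlt
  have hn : 0 < ‖v‖ := norm_pos_iff.mpr hv0
  refine ⟨‖v‖⁻¹ • v, ?_, fun b hb => ?_⟩
  · rw [norm_smul, norm_inv, norm_norm, inv_mul_cancel₀ hn.ne']
  · rw [real_inner_smul_left, real_inner_smul_left, hf, hf]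
    exact mul_lt_mul_of_pos_left ((h1 b hb).trans h2) (inv_pos.mpr hn)

theorem J2_le {n : ℕ} (C : Set (E n)) (hC : IsCompact C) (u x : E n) (hx : x ∈ C) :
    (inner ℝ u x : ℝ) ≤ supp C u := by
  have hcont : Continuous fun x : E n => (inner ℝ u x : ℝ) := continuous_const.inner continuous_id
  exact le_csSup (hC.image hcont).bddAbove ⟨x, hx, rfl⟩

theorem J2_att {n : ℕ} (C : Set (E n)) (hC : IsCompact C) (hne : C.Nonempty) (u : E n) :
    ∃ x ∈ C, (inner ℝ u x : ℝ) = supp C u := by
  have hcont : Continuous fun x : E n => (inner ℝ u x : ℝ) := continuous_const.inner continuous_id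
  obtain ⟨x, hx, h⟩ := hC.exists_sSup_image_eq hne hcont.continuousOn
  exact ⟨x, hx, h.symm⟩

theorem J2 : J2_stmt := by
  intro n C w hCw
  obtain ⟨hne, hcpt, hconv, hw, hwid⟩ := hCw
  refine ⟨?_, ?_, ?_⟩
  · intro x hx y hy
    by_cases hxy : x - y = 0
    · rw [hxy, norm_zero]; exact hw.le
    have hn : 0 < ‖x - y‖ := norm_pos_iff.mpr hxy
    set u : E n := ‖x - y‖⁻¹ • (x - y) with hu
    have hu1 : ‖u‖ = 1 := by
      rw [hu, norm_smul, norm_inv, norm_norm, inv_mul_cancel₀ hn.ne']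
    have h1 := J2_le C hcpt u x hx
    have h2 := J2_le C hcpt (-u) y hy
    have h3 := hwid u hu1
    have h4 : (inner ℝ u (x - y) : ℝ) = ‖x - y‖ := by
      rw [hu, real_inner_smul_left, real_inner_self_eq_norm_sq]
      field_simp
    rw [inner_sub_right] at h4
    rw [inner_neg_left] at h2
    linarith
  · intro y hy
    by_contra hyC
    obtain ⟨u, hu1, hu⟩ := J2_sep C hcpt hconv hne y hyC
    obtain ⟨x0, hx0, h0⟩ := J2_att C hcpt hne u
    obtain ⟨x1, hx1, h1⟩ := J2_att C hcpt hne (-u)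
    have h2 := hu x0 hx0
    have h3 := hwid u hu1
    have h4 : (inner ℝ u (y - x1) : ℝ) ≤ ‖y - x1‖ := by
      have := real_inner_le_norm u (y - x1)
      rwa [hu1, one_mul] at this
    have h5 := hy x1 hx1
    rw [inner_sub_right] at h4
    rw [inner_neg_left] at h1
    linarith
  · intro z hz
    by_contra hcon
    have hK : IsCompact (C - C) := by
      have hct : Continuous fun p : E n × E n => p.1 - p.2 := continuous_fst.sub continuous_snd
      have h : IsCompact ((fun p : E n × E n => p.1 - p.2) '' (C ×ˢ C)) :=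
        (hcpt.prod hcpt).image hct
      rwa [Set.sub_image_prod] at h
    have hKc : Convex ℝ (C - C) := hconv.sub hconv
    have hKne : (C - C).Nonempty := hne.sub hne
    have hzK : z ∉ C - C := by
      rintro ⟨x, hx, y, hy, hxy⟩
      exact hcon ⟨x, hx, y, hy, hxy⟩
    obtain ⟨u, hu1, hu⟩ := J2_sep (C - C) hK hKc hKne z hzK
    obtain ⟨x0, hx0, h0⟩ := J2_att C hcpt hne u
    obtain ⟨x1, hx1, h1⟩ := J2_att C hcpt hne (-u)
    have h2 := hu (x0 - x1) (Set.sub_mem_sub hx0 hx1)
    have h3 := hwid u hu1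
    have h4 : (inner ℝ u z : ℝ) ≤ ‖z‖ := by
      have := real_inner_le_norm u z
      rwa [hu1, one_mul] at this
    rw [inner_sub_right] at h2
    rw [inner_neg_left] at h1
    linarith

end Pool.Agent.helper81.CW
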